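import Mathlib
import Pool.Agent.Helper292.ForceCH
import Pool.Agent.H362Z.PMUN

set_option autoImplicit false

open MeasureTheory

namespace Pool.Agent.Results.MP_2087e7_lc.ForcedSeparation

variable {X : Type} [TopologicalSpace X]

/-- `F` is a countable union of closed sets. -/
def IsFsigma (F : Set X) : Prop :=
  ∃ K : ℕ → Set X, (∀ n, IsClosed (K n)) ∧ F = ⋃ n, K n

/-- `μ` is a finite non-atomic measure on the Borel sets of `X`. -/
def FiniteNonAtomic (μ : @Measure X (borel X)) : Prop :=
  μ Set.univ < ⊤ ∧ ∀ x, μ {x} = 0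

/-- `A` is universally null: it has outer measure zero for every finite non-atomic Borel
measure. (For a set that is not measurable, `μ A` is the outer measure of `A`.) -/
def UniversallyNull (A : Set X) : Prop :=
  ∀ μ : @Measure X (borel X), FiniteNonAtomic μ → μ A = 0

/-- `A` is countably perfectly null: for every finite non-atomic Borel measure it is covered by
an `F_σ` set of measure zero. -/
def CountablyPerfectlyNull (A : Set X) : Prop :=
  ∀ μ : @Measure X (borel X), FiniteNonAtomic μ → ∃ F : Set X, IsFsigma F ∧ A ⊆ F ∧ μ F = 0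

/-- `A` is countably perfectly meager in `X`: for each sequence of perfect subsets `P n` of `X`
there is an `F_σ` set `F ⊇ A` whose trace on each `P n` is meager in the relative topology
of `P n`. -/
def CountablyPerfectlyMeager (A : Set X) : Prop :=
  ∀ P : ℕ → Set X, (∀ n, Perfect (P n)) →
    ∃ F : Set X, IsFsigma F ∧ A ⊆ F ∧ ∀ n, IsMeagre (Subtype.val ⁻¹' F : Set (P n))

/-- No hypothesis is assumed. (1) There is a notion of forcing `P` all of whose conditions force
that `ω₁` is preserved and that the continuum hypothesis holds. (2) The continuum hypothesis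
implies that some subset of the plane is countably perfectly meager and universally null but
not countably perfectly null. -/
theorem result :
    (∃ (P : Type) (_ : Preorder P), Nonempty P ∧ ∀ p : P,
      p ∈ Pool.Agent.Helper292.ForceCH.OmegaOnePreserved P ∧
      p ∈ Pool.Agent.Helper292.ForceCH.CHHolds P) ∧
    (Cardinal.continuum.{0} = Cardinal.aleph 1 →
      ∃ A : Set (ℝ × ℝ), CountablyPerfectlyMeager A ∧ UniversallyNull A ∧
        ¬ CountablyPerfectlyNull A) := by
  refine ⟨?_, fun CH => ?_⟩
  · obtain ⟨P, hP, hne, h⟩ := Pool.Agent.Helper292.ForceCH.exists_forcing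
    exact ⟨P, hP, hne, fun p => ⟨(h p).1, (h p).2.2⟩⟩
  · obtain ⟨A, h1, h2, μ, hμ, hμ0, h3⟩ := Pool.Agent.H362Z.PMUN.main CH
    have hb : borel (ℝ × ℝ) = Prod.instMeasurableSpace := BorelSpace.measurable_eq.symm
    unfold UniversallyNull CountablyPerfectlyNull FiniteNonAtomic
    rw [hb]
    refine ⟨A, fun P hP => ?_, fun ν hν => h2 ν hν.1 hν.2, fun h => ?_⟩
    · obtain ⟨K, hK, hA, hm⟩ := h1 P hP
      exact ⟨_, ⟨K, hK, rfl⟩, hA, hm⟩
    · obtain ⟨F, ⟨K, hK, rfl⟩, hE, hF⟩ := h μ ⟨hμ, hμ0⟩
      exact h3 K hK hE hF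

end Pool.Agent.Results.MP_2087e7_lc.ForcedSeparation
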